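import Mathlib
import Pool.Agent.Helper496.RB.Final

set_option autoImplicit false

open Finset

namespace Pool.Agent.Results.MP_ecde8e_co.FactorTwo

/-- there is a directed cycle `c 0 → c 1 → ... → c (m + 1) → c 0` on `m + 2 ≥ 2` distinct vertices whose arcs
belong to pairwise different sets `E (l j)` -/
def RainbowCycle {V : Type} {t : ℕ} (E : Fin t → V → V → Prop) : Prop :=
  ∃ (m : ℕ) (c : Fin (m + 2) → V) (l : Fin (m + 2) → Fin t), Function.Injective c ∧
    Function.Injective l ∧ ∀ j, E (l j) (c j) (c (j + 1))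

open Classical in
theorem result {V : Type} [Fintype V] [Nonempty V] (t : ℕ) (E : Fin t → V → V → Prop)
    (hloop : ∀ i v, ¬ E i v v) (r : Fin t → ℕ) (hr : ∀ i v, r i ≤ #{w | E i v w}) :
    (3 * Fintype.card V ≤ ∑ i, r i + 1 → RainbowCycle E) ∧
    (∀ M : ℕ, (∀ i, r i ≤ M) → 2 * Fintype.card V + M ≤ ∑ i, r i → RainbowCycle E) ∧
    (∀ s : ℕ, 1 ≤ s → (∀ i, r i = s) → 2 * Fintype.card V ≤ t * (s + 1) → RainbowCycle E) := by
  have h := RB496.final t E hloop (Fintype.card V) rfl r hr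
  exact ⟨fun h1 => h (Or.inr (Or.inr h1)), fun M h1 h2 => h (Or.inr (Or.inl ⟨M, h1, h2⟩)),
    fun s h1 h2 h3 => h (Or.inl ⟨s, h1, h2, h3⟩)⟩

end Pool.Agent.Results.MP_ecde8e_co.FactorTwo
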